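import Pool.Agent.W935.SK.Stm

set_option autoImplicit false

namespace Pool.Agent.W460.SK.CNT

open Finset Pool.Agent.H884R2.Sko Pool.Agent.W935.SK

/-- lifting a solution modulo `p` -/
theorem lift {d p : ℕ} (f : Fin d → ℤ) (hp : p.Prime) (i0 : Fin d) (hi0 : ¬ (p : ℤ) ∣ f i0)
    (y : Fin d → ZMod p) (hy : ∑ i, (f i : ZMod p) * y i = 0) :
    ∃ t : Fin d → ℤ, ∑ i, f i * t i = 0 ∧ ∀ i, (t i : ZMod p) = y i := by
  classical
  have hlift : ∀ i, ∃ r : ℤ, (r : ZMod p) = y i := fun i => ZMod.intCast_surjective (y i)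
  choose r hr using hlift
  have h1 : (p : ℤ) ∣ ∑ i, f i * r i := by
    rw [← ZMod.intCast_zmod_eq_zero_iff_dvd]
    push_cast
    rw [← hy]
    exact Finset.sum_congr rfl fun i _ => by rw [hr i]
  obtain ⟨k, hk⟩ := h1
  have hcop : IsCoprime (p : ℤ) (f i0) := by
    rw [Int.isCoprime_iff_gcd_eq_one]
    have := (Nat.Prime.coprime_iff_not_dvd hp).mpr (fun h => hi0 (Int.natCast_dvd.mpr h))
    exact this
  obtain ⟨u, v, huv⟩ := hcop
  refine ⟨fun i => r i - p * (u * r i + if i = i0 then v * k else 0), ?_, ?_⟩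
  · have h2 : ∑ i, f i * (r i - p * (u * r i + if i = i0 then v * k else 0)) =
        (∑ i, f i * r i) - p * (u * ∑ i, f i * r i) -
          p * ∑ i, (if i = i0 then f i * (v * k) else 0) := by
      rw [Finset.mul_sum, Finset.mul_sum, Finset.mul_sum, ← Finset.sum_sub_distrib,
        ← Finset.sum_sub_distrib]
      refine Finset.sum_congr rfl fun i _ => ?_
      by_cases h : i = i0
      · simp only [h, if_true]; ring
      · simp only [h, if_false]; ring
    rw [h2, Finset.sum_ite_eq' Finset.univ i0, if_pos (Finset.mem_univ _), hk]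
    linear_combination (-(p : ℤ) * k) * huv
  · intro i
    push_cast
    rw [hr i]
    simp

/-- the number of solutions modulo `p` -/
theorem card_ker {d p : ℕ} (f : Fin d → ℤ) (hd : 1 ≤ d) (hp : p.Prime)
    (Y : Finset (Fin d → ZMod p))
    (hY : ∀ y, y ∈ Y ↔ ∑ i, (f i : ZMod p) * y i = 0) : p ^ (d - 1) ≤ Y.card := by
  classical
  haveI : Fact p.Prime := ⟨hp⟩
  have h1 := Finset.card_le_mul_card_image (f := fun y : Fin d → ZMod p =>
    ∑ i, (f i : ZMod p) * y i) (s := Finset.univ) Y.card (by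
      intro b hb
      obtain ⟨y0, _, hy0⟩ := Finset.mem_image.mp hb
      refine Finset.card_le_card_of_injOn (fun y => y - y0) ?_ ?_
      · intro y hy
        have hy' := (Finset.mem_filter.mp hy).2
        refine Finset.mem_coe.mpr ((hY _).mpr ?_)
        simp only [Pi.sub_apply, mul_sub, Finset.sum_sub_distrib]
        rw [hy', hy0, sub_self]
      · intro y _ y' _ h
        exact sub_left_injective h)
  rw [Finset.card_univ, Fintype.card_fun, ZMod.card, Fintype.card_fin] at h1
  have h2 : (Finset.univ.image (fun y : Fin d → ZMod p => ∑ i, (f i : ZMod p) * y i)).card ≤ p := by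
    refine (Finset.card_le_univ _).trans ?_
    rw [ZMod.card]
  have h3 : p ^ d ≤ Y.card * p := h1.trans (Nat.mul_le_mul_left _ h2)
  have h4 : p ^ d = p ^ (d - 1) * p := by
    rw [← pow_succ]
    congr 1
    omega
  rw [h4] at h3
  exact Nat.le_of_mul_le_mul_right h3 hp.pos

/-- doubling -/
theorem double {d : ℕ} (f : Fin d → ℤ) (H : ℕ) (hH : 1 ≤ H) (W1 W2 : Finset (Fin d → ℤ))
    (h1 : ∀ a, a ∈ W1 ↔ (∀ i, |a i| ≤ (H : ℤ)) ∧ ∑ i, f i * a i = 0)
    (h2 : ∀ a, a ∈ W2 ↔ (∀ i, |a i| ≤ 2 * (H : ℤ)) ∧ ∑ i, f i * a i = 0) :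
    W2.card ≤ 5 ^ d * W1.card := by
  classical
  have hH' : (0 : ℤ) < H := by exact_mod_cast hH
  have key := Finset.card_le_mul_card_image (f := fun a : Fin d → ℤ => fun i =>
    (a i + 2 * (H : ℤ)) / (H : ℤ)) (s := W2) W1.card (by
      intro b hb
      obtain ⟨a0, ha0, hb0⟩ := Finset.mem_image.mp hb
      refine Finset.card_le_card_of_injOn (fun y => y - a0) ?_ ?_
      · intro a ha
        obtain ⟨ha1, ha2⟩ := Finset.mem_filter.mp ha
        refine Finset.mem_coe.mpr ((h1 _).mpr ⟨?_, ?_⟩)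
        · intro i
          have e1 : (a i + 2 * (H : ℤ)) / (H : ℤ) = (a0 i + 2 * (H : ℤ)) / (H : ℤ) := by
            have := congrFun (ha2.trans hb0.symm) i
            exact this
          have e2 := Int.emod_add_mul_ediv (a i + 2 * (H : ℤ)) H
          have e3 := Int.emod_add_mul_ediv (a0 i + 2 * (H : ℤ)) H
          have e4 := Int.emod_nonneg (a i + 2 * (H : ℤ)) hH'.ne'
          have e5 := Int.emod_nonneg (a0 i + 2 * (H : ℤ)) hH'.ne'
          have e6 := Int.emod_lt_of_pos (a i + 2 * (H : ℤ)) hH'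
          have e7 := Int.emod_lt_of_pos (a0 i + 2 * (H : ℤ)) hH'
          rw [e1] at e2
          simp only [Pi.sub_apply]
          rw [abs_le]
          constructor <;> linarith
        · simp only [Pi.sub_apply, mul_sub, Finset.sum_sub_distrib]
          rw [((h2 a).mp ha1).2, ((h2 a0).mp ha0).2, sub_self]
      · intro y _ y' _ h
        exact sub_left_injective h)
  have himg : (W2.image (fun a : Fin d → ℤ => fun i =>
      (a i + 2 * (H : ℤ)) / (H : ℤ))).card ≤ 5 ^ d := by
    have hsub : W2.image (fun a : Fin d → ℤ => fun i => (a i + 2 * (H : ℤ)) / (H : ℤ)) ⊆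
        Fintype.piFinset (fun _ : Fin d => Finset.Icc (0 : ℤ) 4) := by
      intro b hb
      obtain ⟨a, ha, rfl⟩ := Finset.mem_image.mp hb
      rw [Fintype.mem_piFinset]
      intro i
      have h3 := abs_le.mp (((h2 a).mp ha).1 i)
      rw [Finset.mem_Icc]
      constructor
      · exact Int.ediv_nonneg (by linarith) hH'.le
      · have h4 : (a i + 2 * (H : ℤ)) / (H : ℤ) < 5 := by
          rw [Int.ediv_lt_iff_lt_mul hH']
          linarith
        omega
    refine (Finset.card_le_card hsub).trans ?_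
    rw [Fintype.card_piFinset]
    simp
  calc W2.card ≤ W1.card * _ := key
    _ ≤ W1.card * 5 ^ d := Nat.mul_le_mul_left _ himg
    _ = 5 ^ d * W1.card := Nat.mul_comm _ _

theorem cnt : S_CNT := by
  classical
  intro d p f l Ω hd hp hf hl
  obtain ⟨i0, hi0⟩ := hf
  haveI : Fact p.Prime := ⟨hp⟩
  have hlift := lift f hp i0 hi0
  choose! t ht1 ht2 using hlift
  -- bound
  obtain ⟨C, hC⟩ : ∃ C : ℕ, ∀ y : Fin d → ZMod p, ∀ i, |t y i| ≤ (C : ℤ) := by
    refine ⟨∑ y : Fin d → ZMod p, ∑ i, (t y i).natAbs, fun y i => ?_⟩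
    have h1 : (t y i).natAbs ≤ ∑ i, (t y i).natAbs :=
      Finset.single_le_sum (f := fun i => (t y i).natAbs) (fun _ _ => Nat.zero_le _)
        (Finset.mem_univ i)
    have h2 : ∑ i, (t y i).natAbs ≤ ∑ y : Fin d → ZMod p, ∑ i, (t y i).natAbs :=
      Finset.single_le_sum (f := fun y : Fin d → ZMod p => ∑ i, (t y i).natAbs)
        (fun _ _ => Nat.zero_le _) (Finset.mem_univ y)
    have h3 : ((t y i).natAbs : ℤ) ≤ ((∑ y : Fin d → ZMod p, ∑ i, (t y i).natAbs : ℕ) : ℤ) := by
      exact_mod_cast h1.trans h2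
    rw [Int.natCast_natAbs] at h3
    exact h3
  refine ⟨max 1 C, fun H hH => ?_⟩
  have hH1 : 1 ≤ H := (le_max_left _ _).trans hH
  have hHC : C ≤ H := (le_max_right _ _).trans hH
  generalize hB : ((box (0 : Fin d → ℤ) H).filter (fun a => ∑ i, f i * a i = 0 ∧
      (fun i => (a i : ZMod p)) ∈ Ω)) = B
  generalize hW : ((box (0 : Fin d → ℤ) H).filter (fun a => ∑ i, f i * a i = 0)) = W1
  have hBm : ∀ a, a ∈ B ↔ (∀ i, |a i| ≤ (H : ℤ)) ∧ ∑ i, f i * a i = 0 ∧
      (fun i => (a i : ZMod p)) ∈ Ω := by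
    intro a
    rw [← hB, Finset.mem_filter, mem_box]
    simp only [Pi.zero_apply, sub_zero]
  have hWm : ∀ a, a ∈ W1 ↔ (∀ i, |a i| ≤ (H : ℤ)) ∧ ∑ i, f i * a i = 0 := by
    intro a
    rw [← hW, Finset.mem_filter, mem_box]
    simp only [Pi.zero_apply, sub_zero]
  clear hB hW
  let W2 : Finset (Fin d → ℤ) := (box (0 : Fin d → ℤ) (2 * H)).filter (fun a => ∑ i, f i * a i = 0)
  have hW2m : ∀ a, a ∈ W2 ↔ (∀ i, |a i| ≤ 2 * (H : ℤ)) ∧ ∑ i, f i * a i = 0 := by
    intro a
    rw [Finset.mem_filter, mem_box]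
    simp only [Pi.zero_apply, sub_zero, Nat.cast_mul, Nat.cast_ofNat]
  let Y : Finset (Fin d → ZMod p) := Finset.univ.filter (fun y => ∑ i, (f i : ZMod p) * y i = 0)
  have hYm : ∀ y, y ∈ Y ↔ ∑ i, (f i : ZMod p) * y i = 0 := by
    intro y
    simp [Y]
  have hYc := card_ker f hd hp Y hYm
  have hmap : (B ×ˢ Y).card ≤ Ω.card * W2.card := by
    have h1 := Finset.card_le_mul_card_image (f := fun x : (Fin d → ℤ) × (Fin d → ZMod p) =>
      x.1 + t x.2) (s := B ×ˢ Y) Ω.card (by
        intro w _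
        refine Finset.card_le_card_of_injOn (fun x => fun i => (x.1 i : ZMod p)) ?_ ?_
        · intro x hx
          have hx' := (Finset.mem_product.mp (Finset.mem_filter.mp (Finset.mem_coe.mp hx)).1).1
          exact Finset.mem_coe.mpr ((hBm _).mp hx').2.2
        · intro x hx x' hx' h
          obtain ⟨hx1, hx2⟩ := Finset.mem_filter.mp (Finset.mem_coe.mp hx)
          obtain ⟨hx1', hx2'⟩ := Finset.mem_filter.mp (Finset.mem_coe.mp hx')
          have hxY := (hYm _).mp (Finset.mem_product.mp hx1).2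
          have hxY' := (hYm _).mp (Finset.mem_product.mp hx1').2
          have hy : x.2 = x'.2 := by
            funext i
            rw [← ht2 x.2 hxY i, ← ht2 x'.2 hxY' i]
            have e1 := congrFun (hx2.trans hx2'.symm) i
            have e2 := congrFun h i
            simp only [Pi.add_apply] at e1
            have e3 : ((x.1 i + t x.2 i : ℤ) : ZMod p) = ((x'.1 i + t x'.2 i : ℤ) : ZMod p) := by
              rw [e1]
            push_cast at e3
            simp only at e2
            rw [e2] at e3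
            exact add_left_cancel e3
          have h3 : x.1 = x'.1 := by
            have e1 := hx2.trans hx2'.symm
            simp only [hy] at e1
            exact add_right_cancel e1
          exact Prod.ext h3 hy)
    refine h1.trans (Nat.mul_le_mul_left _ (Finset.card_le_card ?_))
    intro w hw
    obtain ⟨x, hx, rfl⟩ := Finset.mem_image.mp hw
    obtain ⟨hx1, hx2⟩ := Finset.mem_product.mp hx
    have hb := (hBm _).mp hx1
    have hy := (hYm _).mp hx2
    refine (hW2m _).mpr ⟨fun i => ?_, ?_⟩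
    · have e1 := hb.1 i
      have e2 := hC x.2 i
      have e3 : (C : ℤ) ≤ H := by exact_mod_cast hHC
      simp only [Pi.add_apply]
      refine (abs_add_le _ _).trans ?_
      linarith
    · simp only [Pi.add_apply, mul_add, Finset.sum_add_distrib]
      rw [hb.2.1, ht1 x.2 hy, add_zero]
  rw [Finset.card_product] at hmap
  have hd2 := double f H hH1 W1 W2 hWm hW2m
  have hpos : 0 < p ^ (d - 1) := Nat.pow_pos hp.pos
  have h5 : p ^ (d - 1) * (l * B.card) ≤ p ^ (d - 1) * W2.card := by
    calc p ^ (d - 1) * (l * B.card) = l * (B.card * p ^ (d - 1)) := by ring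
      _ ≤ l * (B.card * Y.card) := Nat.mul_le_mul_left _ (Nat.mul_le_mul_left _ hYc)
      _ ≤ l * (Ω.card * W2.card) := Nat.mul_le_mul_left _ hmap
      _ = (l * Ω.card) * W2.card := by ring
      _ ≤ p ^ (d - 1) * W2.card := Nat.mul_le_mul_right _ hl
  exact (Nat.le_of_mul_le_mul_left h5 hpos).trans hd2

end Pool.Agent.W460.SK.CNT
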